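import Mathlib

set_option autoImplicit false

namespace Pool.Agent.Results.MP_2e17cf_an.KKTBelowLocal

open Filter Topology Set Matrix

/-- An instance of the Celis–Dennis–Tapia problem: a quadratic objective with symmetric matrix `Q`
and linear part `c`, and two ellipsoids given by positive definite matrices. -/
structure CDT (n : ℕ) where
  /-- the Hessian of the objective -/
  Q : Matrix (Fin n) (Fin n) ℝ
  /-- the linear part of the objective -/
  c : Fin n → ℝ
  /-- the matrix of the first ellipsoid -/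
  A₁ : Matrix (Fin n) (Fin n) ℝ
  /-- the linear part of the first ellipsoid -/
  b₁ : Fin n → ℝ
  /-- the constant of the first ellipsoid -/
  d₁ : ℝ
  /-- the matrix of the second ellipsoid -/
  A₂ : Matrix (Fin n) (Fin n) ℝ
  /-- the linear part of the second ellipsoid -/
  b₂ : Fin n → ℝ
  /-- the constant of the second ellipsoid -/
  d₂ : ℝ
  symm : Q.IsSymm
  pos₁ : A₁.PosDef
  pos₂ : A₂.PosDef

namespace CDT

variable {n : ℕ} (P : CDT n)

/-- The objective `f (x) = ½ xᵀ Q x + cᵀ x`. -/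
noncomputable def f (x : Fin n → ℝ) : ℝ := 1 / 2 * (x ⬝ᵥ P.Q *ᵥ x) + P.c ⬝ᵥ x

/-- The first constraint function `g₁ (x) = xᵀ A₁ x + 2 b₁ᵀ x + d₁`. -/
noncomputable def g₁ (x : Fin n → ℝ) : ℝ := x ⬝ᵥ P.A₁ *ᵥ x + 2 * (P.b₁ ⬝ᵥ x) + P.d₁

/-- The second constraint function `g₂ (x) = xᵀ A₂ x + 2 b₂ᵀ x + d₂`. -/
noncomputable def g₂ (x : Fin n → ℝ) : ℝ := x ⬝ᵥ P.A₂ *ᵥ x + 2 * (P.b₂ ⬝ᵥ x) + P.d₂

/-- The feasible set. -/
def feasible : Set (Fin n → ℝ) := {x | P.g₁ x ≤ 0 ∧ P.g₂ x ≤ 0}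

/-- Karush–Kuhn–Tucker points; the gradient of `gᵢ` is `2 (Aᵢ x + bᵢ)`. -/
def IsKKT (x : Fin n → ℝ) : Prop :=
  x ∈ P.feasible ∧ ∃ μ₁ μ₂ : ℝ, 0 ≤ μ₁ ∧ 0 ≤ μ₂ ∧
    P.Q *ᵥ x + P.c + μ₁ • ((2 : ℝ) • (P.A₁ *ᵥ x + P.b₁)) +
      μ₂ • ((2 : ℝ) • (P.A₂ *ᵥ x + P.b₂)) = 0 ∧
    μ₁ * P.g₁ x = 0 ∧ μ₂ * P.g₂ x = 0

/-- Global minimizers. -/
def IsGlobal (x : Fin n → ℝ) : Prop := x ∈ P.feasible ∧ ∀ y ∈ P.feasible, P.f x ≤ P.f y

/-- Local minimizers. -/
def IsLocal (x : Fin n → ℝ) : Prop := x ∈ P.feasible ∧ ∀ᶠ y in 𝓝[P.feasible] x, P.f x ≤ P.f y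

/-- Local nonglobal minimizers. -/
def IsLocalNonglobal (x : Fin n → ℝ) : Prop := P.IsLocal x ∧ ¬ P.IsGlobal x

end CDT

/-! ### The example -/

/-- The parameter of the example. -/
noncomputable def dd : ℝ := 314575 / 6249999

theorem dd_pos : 0 < dd := by unfold dd; norm_num
theorem dd_lt : dd < 1 / 16 := by unfold dd; norm_num

/-- The objective in coordinates. -/
noncomputable def φ (v : Fin 3 → ℝ) : ℝ :=
  -(v 0) ^ 2 - v 0 - ((v 1) ^ 2 + (v 2) ^ 2) / 4 + dd * v 1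

/-- The feasible set in coordinates. -/
def FF : Set (Fin 3 → ℝ) :=
  {v | (v 0) ^ 2 + (v 1) ^ 2 + (v 2) ^ 2 ≤ 1 ∧
    (v 0 + 6) ^ 2 + (v 1) ^ 2 + (v 2) ^ 2 ≤ 169 / 4}

/-- The instance. -/
noncomputable def inst : CDT 3 where
  Q := Matrix.diagonal ![-2, -1 / 2, -1 / 2]
  c := ![-1, dd, 0]
  A₁ := 1
  b₁ := 0
  d₁ := -1
  A₂ := 1
  b₂ := ![6, 0, 0]
  d₂ := -25 / 4
  symm := Matrix.diagonal_transpose _
  pos₁ := Matrix.PosDef.one
  pos₂ := Matrix.PosDef.one

theorem inst_f (v : Fin 3 → ℝ) : inst.f v = φ v := by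
  simp only [CDT.f, inst, φ, dotProduct, Matrix.mulVec_diagonal, Fin.sum_univ_three]
  simp
  ring

theorem inst_g1 (v : Fin 3 → ℝ) : inst.g₁ v = (v 0) ^ 2 + (v 1) ^ 2 + (v 2) ^ 2 - 1 := by
  simp only [CDT.g₁, inst, dotProduct, Matrix.one_mulVec, Fin.sum_univ_three]
  simp
  ring

theorem inst_g2 (v : Fin 3 → ℝ) :
    inst.g₂ v = (v 0 + 6) ^ 2 + (v 1) ^ 2 + (v 2) ^ 2 - 169 / 4 := by
  simp only [CDT.g₂, inst, dotProduct, Matrix.one_mulVec, Fin.sum_univ_three]
  simp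
  ring

theorem inst_feasible : inst.feasible = FF := by
  ext v
  simp only [CDT.feasible, FF, Set.mem_ofPred_eq, inst_g1, inst_g2]
  constructor
  · rintro ⟨h1, h2⟩; constructor <;> linarith
  · rintro ⟨h1, h2⟩; constructor <;> linarith

theorem φ_cont : Continuous φ := by unfold φ; fun_prop

theorem FF_closed : IsClosed FF := by
  have h1 : Continuous fun v : Fin 3 → ℝ => (v 0) ^ 2 + (v 1) ^ 2 + (v 2) ^ 2 := by fun_prop
  have h2 : Continuous fun v : Fin 3 → ℝ => (v 0 + 6) ^ 2 + (v 1) ^ 2 + (v 2) ^ 2 := by fun_prop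
  exact (isClosed_le h1 continuous_const).inter (isClosed_le h2 continuous_const)

theorem FF_bounded : Bornology.IsBounded FF := by
  refine (Metric.isBounded_closedBall (x := (0 : Fin 3 → ℝ)) (r := 1)).subset ?_
  intro v hv
  rw [mem_closedBall_zero_iff, pi_norm_le_iff_of_nonneg zero_le_one]
  obtain ⟨h, -⟩ := hv
  intro i
  rw [Real.norm_eq_abs, abs_le_one_iff_mul_self_le_one]
  fin_cases i
  · change v 0 * v 0 ≤ 1; nlinarith [sq_nonneg (v 1), sq_nonneg (v 2)]
  · change v 1 * v 1 ≤ 1; nlinarith [sq_nonneg (v 0), sq_nonneg (v 2)]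
  · change v 2 * v 2 ≤ 1; nlinarith [sq_nonneg (v 0), sq_nonneg (v 1)]

theorem FF_compact : IsCompact FF := Metric.isCompact_of_isClosed_isBounded FF_closed FF_bounded

/-- Values along curves at a local minimizer. -/
theorem curve {q : Fin 3 → ℝ} (hq : ∀ᶠ y in 𝓝[FF] q, φ q ≤ φ y) {γ : ℝ → Fin 3 → ℝ}
    (hγ : Continuous γ) (h0 : γ 0 = q) (hF : ∀ᶠ t in 𝓝 (0 : ℝ), γ t ∈ FF) :
    ∀ᶠ t in 𝓝 (0 : ℝ), φ q ≤ φ (γ t) := by
  have h1 : Tendsto γ (𝓝 0) (𝓝[FF] q) := by
    rw [tendsto_nhdsWithin_iff]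
    refine ⟨?_, hF⟩
    rw [← h0]
    exact hγ.tendsto 0
  exact h1.eventually hq

/-- Small symmetric pairs of parameters. -/
theorem small {p : ℝ → Prop} (h : ∀ᶠ t in 𝓝 (0 : ℝ), p t) {δ : ℝ} (hδ : 0 < δ) :
    ∃ t, 0 < t ∧ t < δ ∧ p t ∧ p (-t) := by
  obtain ⟨ε, hε, hball⟩ := Metric.eventually_nhds_iff.mp h
  refine ⟨min ε δ / 2, ?_, ?_, hball ?_, hball ?_⟩
  · have := lt_min hε hδ; linarith
  · have h1 := lt_min hε hδ
    have := min_le_right ε δ; linarith
  · have h1 := lt_min hε hδ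
    have := min_le_left ε δ
    rw [Real.dist_eq, sub_zero, abs_of_pos (by linarith)]; linarith
  · have h1 := lt_min hε hδ
    have := min_le_left ε δ
    rw [Real.dist_eq, sub_zero, abs_neg, abs_of_pos (by linarith)]; linarith

/-- Elementary facts on sine and cosine for small positive arguments. -/
theorem trig {t : ℝ} (h0 : 0 < t) (h1 : t < 1) :
    0 < Real.sin t ∧ Real.sin t < t ∧ 0 < Real.cos t ∧ Real.cos t < 1 ∧
      1 - Real.cos t ≤ Real.sin t ^ 2 ∧ Real.sin t ^ 2 + Real.cos t ^ 2 = 1 := by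
  have hs : 0 < Real.sin t := Real.sin_pos_of_pos_of_lt_pi h0 (by linarith [Real.pi_gt_three])
  have hst : Real.sin t < t := Real.sin_lt h0
  have hc : 0 < Real.cos t := Real.cos_pos_of_mem_Ioo
    ⟨by linarith [Real.pi_pos], by linarith [Real.pi_gt_three]⟩
  have hsc := Real.sin_sq_add_cos_sq t
  have hc1 : Real.cos t < 1 := by
    by_contra hcon
    push Not at hcon
    nlinarith
  refine ⟨hs, hst, hc, hc1, ?_, hsc⟩
  nlinarith

/-- A local minimizer lies in the plane `z = 0`, with `y ≤ 0`. -/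
theorem step_a {q : Fin 3 → ℝ} (hqF : q ∈ FF) (hq : ∀ᶠ y in 𝓝[FF] q, φ q ≤ φ y) :
    q 2 = 0 ∧ q 1 ≤ 0 := by
  set γ : ℝ → Fin 3 → ℝ := fun t => ![q 0, q 1 * Real.cos t - q 2 * Real.sin t,
    q 1 * Real.sin t + q 2 * Real.cos t] with hγdef
  have hγ : Continuous γ := by
    rw [hγdef]
    refine continuous_pi fun i => ?_
    fin_cases i <;> simp <;> fun_prop
  have h0 : γ 0 = q := by
    rw [hγdef]
    ext i
    fin_cases i <;> simp
  have hF : ∀ᶠ t in 𝓝 (0 : ℝ), γ t ∈ FF := by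
    refine Eventually.of_forall fun t => ?_
    obtain ⟨h1, h2⟩ := hqF
    have hsc := Real.sin_sq_add_cos_sq t
    have e : (q 1 * Real.cos t - q 2 * Real.sin t) ^ 2 + (q 1 * Real.sin t + q 2 * Real.cos t) ^ 2 =
        (q 1) ^ 2 + (q 2) ^ 2 := by linear_combination ((q 1) ^ 2 + (q 2) ^ 2) * hsc
    refine ⟨?_, ?_⟩
    · simp only [hγdef, cons_val_zero, cons_val_one, cons_val]
      linarith
    · simp only [hγdef, cons_val_zero, cons_val_one, cons_val]
      linarith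
  have hmain := curve hq hγ h0 hF
  have hval : ∀ t, φ (γ t) - φ q = dd * (q 1 * (Real.cos t - 1) - q 2 * Real.sin t) := by
    intro t
    have hsc := Real.sin_sq_add_cos_sq t
    simp only [φ, hγdef, cons_val_zero, cons_val_one, cons_val]
    linear_combination (-((q 1) ^ 2 + (q 2) ^ 2) / 4) * hsc
  have hd := dd_pos
  have hstep : ∀ δ, 0 < δ → δ ≤ 1 → ∃ t, 0 < t ∧ t < δ ∧ q 1 ≤ 0 ∧ |q 2| ≤ |q 1| * t := by
    intro δ hδ hδ1
    obtain ⟨t, ht0, htδ, hp, hm⟩ := small hmain hδ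
    obtain ⟨hs, hst, hc, hc1, hcs, -⟩ := trig ht0 (by linarith)
    have hp' : 0 ≤ dd * (q 1 * (Real.cos t - 1) - q 2 * Real.sin t) := by
      rw [← hval]; linarith
    have hm' : 0 ≤ dd * (q 1 * (Real.cos t - 1) + q 2 * Real.sin t) := by
      have := hval (-t)
      rw [Real.cos_neg, Real.sin_neg] at this
      have e : q 1 * (Real.cos t - 1) + q 2 * Real.sin t =
        q 1 * (Real.cos t - 1) - q 2 * -Real.sin t := by ring
      rw [e, ← this]; linarith
    have hp2 := nonneg_of_mul_nonneg_right hp' hd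
    have hm2 := nonneg_of_mul_nonneg_right hm' hd
    have hq1 : q 1 ≤ 0 := by
      by_contra hcon
      push Not at hcon
      nlinarith
    refine ⟨t, ht0, htδ, hq1, ?_⟩
    rw [abs_of_nonpos hq1]
    have h3 : q 1 * (Real.cos t - 1) ≤ -q 1 * Real.sin t * t := by
      have : -q 1 * (1 - Real.cos t) ≤ -q 1 * (Real.sin t ^ 2) :=
        mul_le_mul_of_nonneg_left hcs (by linarith)
      have h4 : -q 1 * (Real.sin t * Real.sin t) ≤ -q 1 * (Real.sin t * t) :=
        mul_le_mul_of_nonneg_left (mul_le_mul_of_nonneg_left hst.le hs.le) (by linarith)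
      nlinarith
    have h5 : |q 2| * Real.sin t ≤ -q 1 * Real.sin t * t := by
      rcases abs_cases (q 2) with ⟨h, -⟩ | ⟨h, -⟩ <;> rw [h] <;> nlinarith
    have h6 : Real.sin t * |q 2| ≤ Real.sin t * (-q 1 * t) := by nlinarith
    exact le_of_mul_le_mul_left h6 hs
  obtain ⟨t, -, -, hq1, -⟩ := hstep 1 one_pos le_rfl
  refine ⟨?_, hq1⟩
  by_contra hne
  have hpos : 0 < |q 2| := abs_pos.mpr hne
  have hδ : 0 < min 1 (|q 2| / (|q 1| + 1)) := lt_min one_pos (by positivity)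
  obtain ⟨t, ht0, htδ, -, hle⟩ := hstep _ hδ (min_le_left _ _)
  have ht2 : t < |q 2| / (|q 1| + 1) := lt_of_lt_of_le htδ (min_le_right _ _)
  have h1 : 0 < |q 1| + 1 := by positivity
  rw [lt_div_iff₀ h1] at ht2
  have := abs_nonneg (q 1)
  nlinarith

/-- A local minimizer is on one of the two spheres. -/
theorem step_b {q : Fin 3 → ℝ} (hz : q 2 = 0) (hq : ∀ᶠ y in 𝓝[FF] q, φ q ≤ φ y)
    (h1 : (q 0) ^ 2 + (q 1) ^ 2 < 1) (h2 : (q 0 + 6) ^ 2 + (q 1) ^ 2 < 169 / 4) : False := by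
  set γ : ℝ → Fin 3 → ℝ := fun t => ![q 0, q 1, t] with hγdef
  have hγ : Continuous γ := by
    rw [hγdef]
    refine continuous_pi fun i => ?_
    fin_cases i <;> simp <;> fun_prop
  have h0 : γ 0 = q := by
    rw [hγdef]
    ext i
    fin_cases i
    · simp
    · simp
    · simp [hz]
  have hF : ∀ᶠ t in 𝓝 (0 : ℝ), γ t ∈ FF := by
    have c1 : Continuous fun t : ℝ => (q 0) ^ 2 + (q 1) ^ 2 + t ^ 2 := by fun_prop
    have c2 : Continuous fun t : ℝ => (q 0 + 6) ^ 2 + (q 1) ^ 2 + t ^ 2 := by fun_prop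
    have e1 : ∀ᶠ t in 𝓝 (0 : ℝ), (q 0) ^ 2 + (q 1) ^ 2 + t ^ 2 < 1 :=
      c1.continuousAt.eventually_lt continuousAt_const (by simpa using h1)
    have e2 : ∀ᶠ t in 𝓝 (0 : ℝ), (q 0 + 6) ^ 2 + (q 1) ^ 2 + t ^ 2 < 169 / 4 :=
      c2.continuousAt.eventually_lt continuousAt_const (by simpa using h2)
    filter_upwards [e1, e2] with t ht1 ht2
    refine ⟨?_, ?_⟩
    · simp only [hγdef, cons_val_zero, cons_val_one, cons_val]; exact ht1.le
    · simp only [hγdef, cons_val_zero, cons_val_one, cons_val]; exact ht2.le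
  obtain ⟨t, ht0, -, hp, -⟩ := small (curve hq hγ h0 hF) one_pos
  have hval : φ (γ t) - φ q = -t ^ 2 / 4 := by
    simp only [φ, hγdef, cons_val_zero, cons_val_one, cons_val]
    rw [hz]; ring
  nlinarith

/-- Only the first constraint active: the point is on the left. -/
theorem step_c {q : Fin 3 → ℝ} (hz : q 2 = 0) (hy : q 1 ≤ 0)
    (hq : ∀ᶠ y in 𝓝[FF] q, φ q ≤ φ y)
    (h1 : (q 0) ^ 2 + (q 1) ^ 2 = 1) (h2 : (q 0 + 6) ^ 2 + (q 1) ^ 2 < 169 / 4) :
    q 0 < -1 / 2 := by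
  by_contra hcon
  push Not at hcon
  have hd := dd_pos
  have hd' := dd_lt
  have hx : q 0 ≤ 1 / 2 := by
    by_contra hc
    push Not at hc
    have : 0 < (q 0 - 1 / 2) * (q 0 + 25 / 2) := mul_pos (by linarith) (by linarith)
    have := sq_nonneg (q 1)
    linarith
  have hr1 : -1 ≤ q 1 := by
    by_contra hc
    push Not at hc
    have : 0 < (-1 - q 1) * (1 - q 1) := mul_pos (by linarith) (by linarith)
    have := sq_nonneg (q 0)
    linarith
  -- first curve
  have hA : -(q 0) * (3 / 2 * q 0 + 1) ≤ dd := by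
    set γ : ℝ → Fin 3 → ℝ := fun t => ![q 0 * Real.cos t, q 1 * Real.cos t, Real.sin t]
      with hγdef
    have hγ : Continuous γ := by
      rw [hγdef]
      refine continuous_pi fun i => ?_
      fin_cases i <;> simp <;> fun_prop
    have h0 : γ 0 = q := by
      rw [hγdef]
      ext i
      fin_cases i
      · simp
      · simp
      · simp [hz]
    have hF : ∀ᶠ t in 𝓝 (0 : ℝ), γ t ∈ FF := by
      have c2 : Continuous fun t : ℝ => (q 0 * Real.cos t + 6) ^ 2 + (q 1 * Real.cos t) ^ 2 +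
        (Real.sin t) ^ 2 := by fun_prop
      have e2 : ∀ᶠ t in 𝓝 (0 : ℝ), (q 0 * Real.cos t + 6) ^ 2 + (q 1 * Real.cos t) ^ 2 +
          (Real.sin t) ^ 2 < 169 / 4 :=
        c2.continuousAt.eventually_lt continuousAt_const (by simpa using h2)
      filter_upwards [e2] with t ht2
      have hsc := Real.sin_sq_add_cos_sq t
      refine ⟨?_, ?_⟩
      · simp only [hγdef, cons_val_zero, cons_val_one, cons_val]
        have : (q 0 * Real.cos t) ^ 2 + (q 1 * Real.cos t) ^ 2 + Real.sin t ^ 2 = 1 := by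
          linear_combination (Real.cos t ^ 2) * h1 + hsc
        exact this.le
      · simp only [hγdef, cons_val_zero, cons_val_one, cons_val]; exact ht2.le
    obtain ⟨t, ht0, ht1, hp, -⟩ := small (curve hq hγ h0 hF) one_pos
    obtain ⟨hs, hst, hc, hc1, hcs, hsc⟩ := trig ht0 ht1
    have hval : φ (γ t) - φ q = (1 - Real.cos t) *
        (3 / 4 * (q 0) ^ 2 * (1 + Real.cos t) + q 0 - dd * q 1) := by
      simp only [φ, hγdef, cons_val_zero, cons_val_one, cons_val]
      rw [hz]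
      linear_combination (-(Real.cos t ^ 2) / 4 + 1 / 4) * h1 - (1 / 4) * hsc
    have h3 : 0 ≤ (1 - Real.cos t) *
        (3 / 4 * (q 0) ^ 2 * (1 + Real.cos t) + q 0 - dd * q 1) := by
      rw [← hval]; linarith
    have h4 := nonneg_of_mul_nonneg_right h3 (by linarith)
    have h5 : (q 0) ^ 2 * (1 + Real.cos t) ≤ (q 0) ^ 2 * 2 :=
      mul_le_mul_of_nonneg_left (by linarith) (sq_nonneg _)
    have h6 : dd * (-q 1) ≤ dd * 1 := mul_le_mul_of_nonneg_left (by linarith) hd.le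
    linarith
  have hx2 : -1 / 10 < q 0 := by
    by_contra hc
    push Not at hc
    have : 0 ≤ (q 0 + 1 / 2) * (-q 0 - 1 / 10) := mul_nonneg (by linarith) (by linarith)
    linarith
  have hr : q 1 < -4 / 5 := by
    by_contra hc
    push Not at hc
    have h3 : 0 ≤ (q 0 + 1 / 2) * (1 / 2 - q 0) := mul_nonneg (by linarith) (by linarith)
    have h4 : 0 ≤ (q 1 + 4 / 5) * (-q 1) := mul_nonneg (by linarith) (by linarith)
    linarith
  -- second curve
  set γ : ℝ → Fin 3 → ℝ := fun t => ![q 0 * Real.cos t - q 1 * Real.sin t,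
    q 1 * Real.cos t + q 0 * Real.sin t, 0] with hγdef
  have hγ : Continuous γ := by
    rw [hγdef]
    refine continuous_pi fun i => ?_
    fin_cases i <;> simp <;> fun_prop
  have h0 : γ 0 = q := by
    rw [hγdef]
    ext i
    fin_cases i
    · simp
    · simp
    · simp [hz]
  have hF : ∀ᶠ t in 𝓝 (0 : ℝ), γ t ∈ FF := by
    have c2 : Continuous fun t : ℝ => (q 0 * Real.cos t - q 1 * Real.sin t + 6) ^ 2 +
      (q 1 * Real.cos t + q 0 * Real.sin t) ^ 2 := by fun_prop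
    have e2 : ∀ᶠ t in 𝓝 (0 : ℝ), (q 0 * Real.cos t - q 1 * Real.sin t + 6) ^ 2 +
      (q 1 * Real.cos t + q 0 * Real.sin t) ^ 2 < 169 / 4 :=
      c2.continuousAt.eventually_lt continuousAt_const (by simpa using h2)
    filter_upwards [e2] with t ht2
    have hsc := Real.sin_sq_add_cos_sq t
    refine ⟨?_, ?_⟩
    · simp only [hγdef, cons_val_zero, cons_val_one, cons_val]
      have : (q 0 * Real.cos t - q 1 * Real.sin t) ^ 2 +
          (q 1 * Real.cos t + q 0 * Real.sin t) ^ 2 = 1 := by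
        linear_combination (Real.sin t ^ 2 + Real.cos t ^ 2) * h1 + hsc
      rw [this]; norm_num
    · simp only [hγdef, cons_val_zero, cons_val_one, cons_val]
      linarith
  obtain ⟨t, ht0, ht1, hp, -⟩ := small (curve hq hγ h0 hF) (show (0 : ℝ) < 1 / 10 by norm_num)
  obtain ⟨hs, hst, hc, hc1, hcs, hsc⟩ := trig ht0 (by linarith)
  set s := Real.sin t with hsdef
  set c := Real.cos t with hcdef
  set X := q 0 * c - q 1 * s with hX
  set Y := q 1 * c + q 0 * s with hY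
  have hXY : X ^ 2 + Y ^ 2 = 1 := by
    rw [hX, hY]
    linear_combination (s ^ 2 + c ^ 2) * h1 + hsc
  have hval : φ (γ t) - φ q = -(X - q 0) * (3 / 4 * (X + q 0) + 1) + dd * (Y - q 1) := by
    simp only [φ, hγdef, cons_val_zero, cons_val_one, cons_val]
    rw [hz]
    linear_combination (-1 / 4 : ℝ) * hXY + (1 / 4) * h1
  have hs2 : s ^ 2 ≤ 1 / 10 * s := by
    have : s * s ≤ 1 / 10 * s := mul_le_mul_of_nonneg_right (by linarith) hs.le
    linarith
  have hXq : 7 / 10 * s ≤ X - q 0 := by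
    have e : X - q 0 = -q 1 * s - q 0 * (1 - c) := by rw [hX]; ring
    have h3 : 4 / 5 * s ≤ -q 1 * s := mul_le_mul_of_nonneg_right (by linarith) hs.le
    have h4 : q 0 * (1 - c) ≤ 1 / 10 * s := by
      have : q 0 * (1 - c) ≤ 1 / 2 * (1 - c) := mul_le_mul_of_nonneg_right hx (by linarith)
      linarith
    rw [e]; linarith
  have hYq : Y - q 1 ≤ 2 * s := by
    have e : Y - q 1 = -q 1 * (1 - c) + q 0 * s := by rw [hY]; ring
    have h3 : -q 1 * (1 - c) ≤ 1 * (1 - c) := mul_le_mul_of_nonneg_right (by linarith) (by linarith)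
    have h4 : q 0 * s ≤ 1 / 2 * s := mul_le_mul_of_nonneg_right hx hs.le
    rw [e]; linarith
  have hfac : 4 / 5 ≤ 3 / 4 * (X + q 0) + 1 := by linarith
  have hprod : 7 / 10 * s * (4 / 5) ≤ (X - q 0) * (3 / 4 * (X + q 0) + 1) :=
    mul_le_mul hXq hfac (by norm_num) (by linarith)
  have hdY : dd * (Y - q 1) ≤ 1 / 16 * (2 * s) := by
    by_cases hneg : Y - q 1 ≤ 0
    · have := mul_nonneg hd.le (show 0 ≤ -(Y - q 1) by linarith)
      linarith
    · push Not at hneg
      exact mul_le_mul hd'.le hYq hneg.le (by norm_num)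
  linarith

/-- The second constraint alone is never active at a local minimizer. -/
theorem step_d {q : Fin 3 → ℝ} (hz : q 2 = 0)
    (hq : ∀ᶠ y in 𝓝[FF] q, φ q ≤ φ y)
    (h1 : (q 0) ^ 2 + (q 1) ^ 2 < 1) (h2 : (q 0 + 6) ^ 2 + (q 1) ^ 2 = 169 / 4) : False := by
  have hd := dd_pos
  have hd' := dd_lt
  have hx : 7 / 16 < q 0 := by linarith
  have hx2 : q 0 ≤ 1 / 2 := by
    by_contra hc
    push Not at hc
    have : 0 < (q 0 - 1 / 2) * (q 0 + 25 / 2) := mul_pos (by linarith) (by linarith)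
    have := sq_nonneg (q 1)
    linarith
  have hr1 : -1 ≤ q 1 := by
    by_contra hc
    push Not at hc
    have : 0 < (-1 - q 1) * (1 - q 1) := mul_pos (by linarith) (by linarith)
    have := sq_nonneg (q 0)
    linarith
  set γ : ℝ → Fin 3 → ℝ := fun t => ![(q 0 + 6) * Real.cos t - 6, q 1 * Real.cos t,
    13 / 2 * Real.sin t] with hγdef
  have hγ : Continuous γ := by
    rw [hγdef]
    refine continuous_pi fun i => ?_
    fin_cases i <;> simp <;> fun_prop
  have h0 : γ 0 = q := by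
    rw [hγdef]
    ext i
    fin_cases i
    · simp
    · simp
    · simp [hz]
  have hF : ∀ᶠ t in 𝓝 (0 : ℝ), γ t ∈ FF := by
    have c2 : Continuous fun t : ℝ => ((q 0 + 6) * Real.cos t - 6) ^ 2 + (q 1 * Real.cos t) ^ 2 +
      (13 / 2 * Real.sin t) ^ 2 := by fun_prop
    have e2 : ∀ᶠ t in 𝓝 (0 : ℝ), ((q 0 + 6) * Real.cos t - 6) ^ 2 + (q 1 * Real.cos t) ^ 2 +
      (13 / 2 * Real.sin t) ^ 2 < 1 :=
      c2.continuousAt.eventually_lt continuousAt_const (by simpa using h1)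
    filter_upwards [e2] with t ht2
    have hsc := Real.sin_sq_add_cos_sq t
    refine ⟨?_, ?_⟩
    · simp only [hγdef, cons_val_zero, cons_val_one, cons_val]; exact ht2.le
    · simp only [hγdef, cons_val_zero, cons_val_one, cons_val]
      have : ((q 0 + 6) * Real.cos t - 6 + 6) ^ 2 + (q 1 * Real.cos t) ^ 2 +
          (13 / 2 * Real.sin t) ^ 2 = 169 / 4 := by
        linear_combination (Real.cos t ^ 2) * h2 + (169 / 4) * hsc
      exact this.le
  obtain ⟨t, ht0, ht1, hp, -⟩ := small (curve hq hγ h0 hF) one_pos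
  obtain ⟨hs, hst, hc, hc1, hcs, hsc⟩ := trig ht0 ht1
  set s := Real.sin t with hsdef
  set c := Real.cos t with hcdef
  set X := (q 0 + 6) * c - 6 with hX
  have hXle : X ≤ q 0 := by
    have : (q 0 + 6) * c ≤ (q 0 + 6) * 1 := mul_le_mul_of_nonneg_left hc1.le (by linarith)
    rw [hX]; linarith
  have hval : φ (γ t) - φ q =
      (1 - c) * (-(q 0 + 6) * (2 - 3 / 4 * (X + q 0)) - dd * q 1) := by
    simp only [φ, hγdef, cons_val_zero, cons_val_one, cons_val]
    rw [hz, hX]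
    linear_combination (-(c ^ 2) / 4 + 1 / 4) * h2 - (169 / 16) * hsc
  have h3 : 0 ≤ (1 - c) * (-(q 0 + 6) * (2 - 3 / 4 * (X + q 0)) - dd * q 1) := by
    rw [← hval]; linarith
  have h4 := nonneg_of_mul_nonneg_right h3 (by linarith)
  have h5 : 6 * (5 / 4) ≤ (q 0 + 6) * (2 - 3 / 4 * (X + q 0)) :=
    mul_le_mul (by linarith) (by linarith) (by norm_num) (by linarith)
  have h6 : dd * (-q 1) ≤ 1 / 16 * 1 :=
    mul_le_mul_of_nonneg hd'.le (by linarith) hd.le (by norm_num)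
  linarith

/-- The global minimizer. -/
noncomputable def gm : Fin 3 → ℝ := ![7 / 16, -Real.sqrt (207 / 256), 0]

/-- Classification of local minimizers. -/
theorem classify {q : Fin 3 → ℝ} (hqF : q ∈ FF) (hq : ∀ᶠ y in 𝓝[FF] q, φ q ≤ φ y) :
    q = gm ∨ q 0 < -1 / 2 := by
  obtain ⟨hz, hy⟩ := step_a hqF hq
  obtain ⟨g1, g2⟩ := hqF
  rw [hz] at g1 g2
  have g1' : (q 0) ^ 2 + (q 1) ^ 2 ≤ 1 := by linarith
  have g2' : (q 0 + 6) ^ 2 + (q 1) ^ 2 ≤ 169 / 4 := by linarith
  rcases g1'.lt_or_eq with h1 | h1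
  · rcases g2'.lt_or_eq with h2 | h2
    · exact absurd (step_b hz hq h1 h2) id
    · exact absurd (step_d hz hq h1 h2) id
  · rcases g2'.lt_or_eq with h2 | h2
    · exact Or.inr (step_c hz hy hq h1 h2)
    · left
      have hx : q 0 = 7 / 16 := by linarith
      have hy2 : (q 1) ^ 2 = 207 / 256 := by rw [hx] at h1; linarith
      have hy3 : q 1 = -Real.sqrt (207 / 256) := by
        have : Real.sqrt (207 / 256) = -q 1 := by
          rw [← hy2, Real.sqrt_sq_eq_abs, abs_of_nonpos hy]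
        rw [this]; ring
      ext i
      fin_cases i
      · simpa [gm] using hx
      · simpa [gm] using hy3
      · simpa [gm] using hz

/-- Lower bound on the left part. -/
theorem left_bound {q : Fin 3 → ℝ} (hqF : q ∈ FF) (hx : q 0 ≤ -1 / 2) : -dd ≤ φ q := by
  obtain ⟨g1, -⟩ := hqF
  have hd := dd_pos
  have hx1 : -1 ≤ q 0 := by nlinarith [sq_nonneg (q 1), sq_nonneg (q 2)]
  have hy1 : -1 ≤ q 1 := by nlinarith [sq_nonneg (q 0), sq_nonneg (q 2)]
  have h1 : 0 ≤ (-(3 * q 0 + 1)) * (q 0 + 1) := mul_nonneg (by linarith) (by linarith)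
  have h2 : -dd ≤ dd * q 1 := by nlinarith
  unfold φ
  nlinarith

/-- The saddle-like Karush–Kuhn–Tucker point. -/
noncomputable def kp : Fin 3 → ℝ := ![2475 / 5002, 650 / 2501, 0]

theorem kp_mem : kp ∈ FF := by
  refine ⟨?_, ?_⟩ <;> simp only [kp, cons_val_zero, cons_val_one, cons_val] <;> norm_num

theorem kp_val : φ kp < -7 / 10 := by
  simp only [φ, kp, dd, cons_val_zero, cons_val_one, cons_val]
  norm_num

theorem kp_kkt : inst.IsKKT kp := by
  refine ⟨by rw [inst_feasible]; exact kp_mem, 0, 4976 / 32487, le_rfl, by norm_num, ?_, by simp,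
    ?_⟩
  · ext i
    simp only [Pi.add_apply, Pi.smul_apply, smul_eq_mul, inst, Matrix.mulVec_diagonal,
      Matrix.one_mulVec, Pi.zero_apply]
    fin_cases i
    · simp [kp]
      norm_num
    · simp [kp, dd]
      norm_num
    · simp [kp]
  · rw [inst_g2]
    simp only [kp, cons_val_zero, cons_val_one, cons_val]
    norm_num

theorem kp_ne_gm : kp ≠ gm := by
  intro h
  have h1 : kp 1 = gm 1 := by rw [h]
  simp only [kp, gm, cons_val_one, cons_val_zero] at h1
  have h2 := Real.sqrt_nonneg (207 / 256)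
  have h3 : (0 : ℝ) < 650 / 2501 := by norm_num
  linarith

theorem isLocal_iff {q : Fin 3 → ℝ} :
    inst.IsLocal q ↔ q ∈ FF ∧ ∀ᶠ y in 𝓝[FF] q, φ q ≤ φ y := by
  unfold CDT.IsLocal
  rw [inst_feasible]
  simp only [inst_f]

theorem isGlobal_iff {q : Fin 3 → ℝ} :
    inst.IsGlobal q ↔ q ∈ FF ∧ ∀ y ∈ FF, φ q ≤ φ y := by
  unfold CDT.IsGlobal
  rw [inst_feasible]
  simp only [inst_f]

theorem global_eq {q : Fin 3 → ℝ} (h : inst.IsGlobal q) : q = gm := by
  rw [isGlobal_iff] at h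
  obtain ⟨hF, hmin⟩ := h
  have hloc : ∀ᶠ y in 𝓝[FF] q, φ q ≤ φ y := by
    filter_upwards [self_mem_nhdsWithin] with y hy using hmin y hy
  rcases classify hF hloc with h | h
  · exact h
  · have h1 := left_bound hF h.le
    have h2 := hmin _ kp_mem
    have h3 := kp_val
    have h4 := dd_lt
    linarith

theorem exists_global : ∃ q, inst.IsGlobal q := by
  obtain ⟨q, hq, hmin⟩ := FF_compact.exists_isMinOn ⟨kp, kp_mem⟩ φ_cont.continuousOn
  exact ⟨q, isGlobal_iff.mpr ⟨hq, fun y hy => hmin hy⟩⟩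

theorem exists_lnm : ∃ q, inst.IsLocalNonglobal q := by
  have hK : IsCompact (FF ∩ {v : Fin 3 → ℝ | v 0 ≤ -1 / 2}) := by
    refine FF_compact.inter_right ?_
    have : Continuous fun v : Fin 3 → ℝ => v 0 := by fun_prop
    exact isClosed_le this continuous_const
  have hmem : (![-1, 0, 0] : Fin 3 → ℝ) ∈ FF ∩ {v : Fin 3 → ℝ | v 0 ≤ -1 / 2} := by
    refine ⟨⟨?_, ?_⟩, ?_⟩
    · simp
    · simp; norm_num
    · change (![-1, 0, 0] : Fin 3 → ℝ) 0 ≤ -1 / 2
      simp; norm_num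
  obtain ⟨q, hq, hmin⟩ := hK.exists_isMinOn ⟨_, hmem⟩ φ_cont.continuousOn
  have h0 : φ q ≤ 0 := by
    have h1 : φ q ≤ φ ![-1, 0, 0] := hmin hmem
    have h2 : φ ![-1, 0, 0] = 0 := by simp [φ]
    linarith
  obtain ⟨hqF, hqx⟩ := hq
  have hqx' : q 0 ≤ -1 / 2 := hqx
  have hlt : q 0 < -1 / 2 := by
    rcases hqx'.lt_or_eq with h | h
    · exact h
    · exfalso
      obtain ⟨g1, -⟩ := hqF
      have hd := dd_pos
      have hd' := dd_lt
      have hy1 : -1 ≤ q 1 := by nlinarith [sq_nonneg (q 0), sq_nonneg (q 2)]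
      have h2 : -dd ≤ dd * q 1 := by nlinarith
      unfold φ at h0
      rw [h] at h0 g1
      nlinarith
  refine ⟨q, ⟨?_, ?_⟩⟩
  · rw [isLocal_iff]
    refine ⟨hqF, ?_⟩
    have hopen : {v : Fin 3 → ℝ | v 0 < -1 / 2} ∈ 𝓝 q := by
      have hc : Continuous fun v : Fin 3 → ℝ => v 0 := by fun_prop
      exact (isOpen_lt hc continuous_const).mem_nhds hlt
    filter_upwards [self_mem_nhdsWithin, mem_nhdsWithin_of_mem_nhds hopen] with y hy hy2
    exact hmin ⟨hy, le_of_lt hy2⟩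
  · intro hg
    have h1 := left_bound hqF hqx'
    rw [isGlobal_iff] at hg
    have h2 := hg.2 _ kp_mem
    have h3 := kp_val
    have h4 := dd_lt
    linarith

/-- There is an instance of the CDT problem in dimension three with exactly one global minimizer,
with a local nonglobal minimizer, and with a Karush–Kuhn–Tucker point which is not a global
minimizer and whose value is strictly below the infimum of the local nonglobal minimum values. -/
theorem result : ∃ P : CDT 3, (∃! x, P.IsGlobal x) ∧ (∃ x, P.IsLocalNonglobal x) ∧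
    ∃ k, P.IsKKT k ∧ ¬ P.IsGlobal k ∧ P.f k < sInf (P.f '' {x | P.IsLocalNonglobal x}) := by
  refine ⟨inst, ?_, exists_lnm, kp, kp_kkt, ?_, ?_⟩
  · obtain ⟨q, hq⟩ := exists_global
    exact ⟨q, hq, fun y hy => (global_eq hy).trans (global_eq hq).symm⟩
  · intro h
    exact kp_ne_gm (global_eq h)
  · obtain ⟨q, hq⟩ := exists_lnm
    have hne : (inst.f '' {x | inst.IsLocalNonglobal x}).Nonempty := ⟨_, q, hq, rfl⟩
    have hle : -dd ≤ sInf (inst.f '' {x | inst.IsLocalNonglobal x}) := by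
      apply le_csInf hne
      rintro _ ⟨x, ⟨hx, hxg⟩, rfl⟩
      rw [inst_f]
      have hx' := isLocal_iff.mp hx
      rcases classify hx'.1 hx'.2 with h | h
      · exfalso
        apply hxg
        obtain ⟨y, hy⟩ := exists_global
        rw [h, ← global_eq hy]
        exact hy
      · exact left_bound hx'.1 h.le
    have h3 := kp_val
    have h4 := dd_lt
    rw [inst_f]
    linarith

end Pool.Agent.Results.MP_2e17cf_an.KKTBelowLocal
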